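import Pool.Agent.Lib.MP_226ef1_lc.U.Tools

/-!
# Module FAMWF: the templates are well-formed
-/

set_option autoImplicit false

namespace Pool.Agent.Lib.MP_226ef1_lc.U.H88

open Pool.Agent.Lib.MP_226ef1_lc.U

theorem sds_nodup (r h : ℕ) : (sds r h).Nodup := by
  unfold sds
  refine List.Nodup.append ?_ ?_ ?_
  · exact List.nodup_range.map fun a b hab => by simp only [cc] at hab; omega
  · exact List.nodup_range.map fun a b hab => by simp only [kk] at hab; omega
  · intro c hc hc'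
    simp only [List.mem_map] at hc hc'
    obtain ⟨i, -, rfl⟩ := hc
    obtain ⟨j, -, hj⟩ := hc'
    simp only [cc, kk] at hj
    omega

theorem mem_sds {r h c : ℕ} : c ∈ sds r h ↔ (∃ i, i < r ∧ c = cc i) ∨ (∃ i, i < h ∧ c = kk i) := by
  simp only [sds, List.mem_append, List.mem_map, List.mem_range]
  constructor
  · rintro (⟨i, hi, rfl⟩ | ⟨i, hi, rfl⟩)
    · exact Or.inl ⟨i, hi, rfl⟩
    · exact Or.inr ⟨i, hi, rfl⟩
  · rintro (⟨i, hi, rfl⟩ | ⟨i, hi, rfl⟩)
    · exact Or.inl ⟨i, hi, rfl⟩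
    · exact Or.inr ⟨i, hi, rfl⟩

theorem length_sds (r h : ℕ) : (sds r h).length = r + h := by simp [sds]

theorem mkT_wf {l r h m : ℕ} {D : ℕ → Prop} {bad : List ℕ → Prop} (hl : 24 ≤ l) (h1 : 1 ≤ r + h)
    (h5 : r + h ≤ 5) (hb : ∀ w, bad w → nfw l r h w ∨
      (2 ≤ w.length ∧ w.length ≤ l ∧ w.sum % 2 = 0 ∧ ∀ c ∈ sds r h, c ∈ w)) :
    (mkT l r h D m bad).WF where
  cols_ge c hc := by
    rcases hc with ⟨i, _, rfl⟩ | ⟨i, _, rfl⟩ | ⟨k, _, rfl⟩ | ⟨i, _, rfl⟩ <;>
      simp only [cc, kk, dd, oo] <;> omega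
  seeds_cols c hc := by
    rcases mem_sds.1 hc with ⟨i, hi, rfl⟩ | ⟨i, hi, rfl⟩
    · exact Or.inl ⟨i, hi, rfl⟩
    · exact Or.inr (Or.inl ⟨i, hi, rfl⟩)
  seeds_ne := by
    intro h0
    have := length_sds r h
    have h0 : sds r h = [] := h0
    rw [h0] at this
    simp at this
    omega
  seeds_le := by
    show (sds r h).length ≤ 5
    rw [length_sds]; exact h5
  bad_ge w hw := by
    rcases hb w hw with h | h
    · have := h.1; omega
    · exact h.1
  bad_le w hw := by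
    show w.length ≤ l
    rcases hb w hw with h | h
    · have := h.1; omega
    · exact h.2.1
  bad_even w hw := by
    rcases hb w hw with h | h
    · exact h.2.1
    · exact h.2.2.1
  bad_full w hw := by
    rcases hb w hw with h | h
    · exact Or.inr h.1
    · exact Or.inl h.2.2.2
  len_ge := by show 8 ≤ l; omega

theorem L_ge (J : TS) : 24 ≤ J.L := by unfold TS.L; omega

theorem sum_replicate_oo (n : ℕ) : (List.replicate n (oo 0)).sum % 2 = 0 := by
  simp only [List.sum_replicate, oo, smul_eq_mul]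
  omega

theorem sum_blk (x n y : ℕ) : (blk (oo 0) x n y).sum % 2 = (x + y) % 2 := by
  have := sum_replicate_oo n
  simp only [blk, List.sum_cons, List.sum_append, List.sum_nil]
  omega

theorem length_blk {α : Type*} (o x : α) (n : ℕ) (y : α) : (blk o x n y).length = n + 2 := by
  simp [blk]

theorem T1_wf (J : TS) : (T1 J).WF := by
  refine mkT_wf (L_ge J) (by omega) (by omega) fun w hw => ?_
  rcases hw with h | ⟨hl, h⟩
  · exact Or.inl h
  right
  have hfull : ∀ x y n, (x = cc 0 ∨ y = cc 0) → w = blk (oo 0) x n y → ∀ c ∈ sds 1 0, c ∈ w := by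
    intro x y n hxy hw c hc
    have : c = cc 0 := by
      rcases mem_sds.1 hc with ⟨i, hi, rfl⟩ | ⟨i, hi, rfl⟩
      · have : i = 0 := by omega
        rw [this]
      · omega
    subst this
    subst hw
    rcases hxy with rfl | rfl <;> simp [blk]
  rcases h with ⟨k, n, _, _, _, hw⟩ | ⟨k, n, _, _, _, hw⟩ | ⟨n, _, hw⟩
  · refine ⟨by rw [hw, length_blk]; omega, hl, ?_, hfull _ _ n (Or.inl rfl) hw⟩
    rw [hw, sum_blk]; simp only [cc, dd]; omega
  · refine ⟨by rw [hw, length_blk]; omega, hl, ?_, hfull _ _ n (Or.inr rfl) hw⟩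
    rw [hw, sum_blk]; simp only [cc, dd]; omega
  · refine ⟨by rw [hw, length_blk]; omega, hl, ?_, hfull _ _ n (Or.inl rfl) hw⟩
    rw [hw, sum_blk]; simp only [cc]

theorem L3_wf (J : TS) (hJ : J.WF) : (L3 J).WF := by
  refine mkT_wf (L_ge J) (by omega) (by omega) fun w hw => ?_
  rcases hw with h | ⟨i, j, k, hi, hj, hk, _, hw⟩
  · exact Or.inl h
  right
  have h1 := hJ.lt i hi
  have h2 := hJ.lt j hj
  have h3 := hJ.lt k hk
  have hlen : w.length = 4 + J.p i + J.p j + J.p k := by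
    rw [hw]; simp only [List.length_cons, List.length_append, List.length_replicate,
      List.length_nil]; omega
  refine ⟨by omega, ?_, ?_, ?_⟩
  · rw [hlen]; simp only [TS.p, TS.L]; omega
  · have e1 := sum_replicate_oo (J.p i)
    have e2 := sum_replicate_oo (J.p j)
    have e3 := sum_replicate_oo (J.p k)
    rw [hw]
    simp only [List.sum_cons, List.sum_append, List.sum_nil, cc] at *
    omega
  · intro c hc
    rcases mem_sds.1 hc with ⟨t, ht, rfl⟩ | ⟨t, ht, rfl⟩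
    · rw [hw]
      interval_cases t <;> simp
    · omega

theorem G0_wf (J : TS) {r : ℕ} (h1 : 1 ≤ r) (h5 : r ≤ 5) : (G0 J r).WF := by
  refine mkT_wf (L_ge J) (by omega) (by omega) fun w hw => ?_
  rcases hw with h | ⟨hl, hs, h⟩
  · exact Or.inl h
  · have := L_ge J
    exact Or.inr ⟨by omega, by omega, hs, fun c hc => (h c).2 (Or.inl hc)⟩

theorem G1_wf (J : TS) {r : ℕ} (h5 : r ≤ 4) : (G1 J r).WF := by
  refine mkT_wf (L_ge J) (by omega) (by omega) fun w hw => ?_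
  rcases hw with h | ⟨hl, hs, h⟩
  · exact Or.inl h
  · have := L_ge J
    exact Or.inr ⟨by omega, by omega, hs, fun c hc => (h c).2 hc⟩

theorem FF_wf (J : TS) {r h : ℕ} (h1 : 2 ≤ h) (h5 : r + h ≤ 5) : (FF J r h).WF :=
  mkT_wf (L_ge J) (by omega) (by omega) fun _ hw => Or.inl hw

theorem FR_wf (J : TS) {g : ℕ} (h1 : 1 ≤ g) (h5 : g ≤ 5) : (FR J g).WF :=
  mkT_wf (L_ge J) (by omega) (by omega) fun _ hw => hw.elim

theorem famwf : FamWfStatement := by
  intro J hJ τ hτ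
  rcases hτ with (rfl | rfl | ⟨r, h1, h2, rfl⟩ | ⟨r, h1, h2, rfl⟩ | ⟨r, h, h1, h2, rfl⟩) |
    ⟨g, h1, h2, rfl⟩
  · exact ⟨T1_wf J, rfl, sds_nodup _ _⟩
  · exact ⟨L3_wf J hJ, rfl, sds_nodup _ _⟩
  · exact ⟨G0_wf J h1 h2, rfl, sds_nodup _ _⟩
  · exact ⟨G1_wf J h2, rfl, sds_nodup _ _⟩
  · exact ⟨FF_wf J h1 h2, rfl, sds_nodup _ _⟩
  · exact ⟨FR_wf J h1 h2, rfl, sds_nodup _ _⟩

end Pool.Agent.Lib.MP_226ef1_lc.U.H88
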