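import Pool.Agent.Lib.MP_226ef1_lc.U.H88.FinalH
import Pool.Agent.Lib.MP_226ef1_lc.U.H25.WordsC
import Pool.Agent.Lib.MP_226ef1_lc.U.H39.A1
import Pool.Agent.Lib.MP_226ef1_lc.U.H39.A4
import Pool.Agent.Lib.MP_226ef1_lc.U.H39.B1
import Pool.Agent.Lib.MP_226ef1_lc.U.H39.ConsT1
import Pool.Agent.Lib.MP_226ef1_lc.U.H47.A3
import Pool.Agent.Lib.MP_226ef1_lc.U.H47.W
import Pool.Agent.Lib.MP_226ef1_lc.U.H50.Dict
import Pool.Agent.Lib.MP_226ef1_lc.U.H58.Rank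
import Pool.Agent.Lib.MP_226ef1_lc.U.H72.Tswf
import Pool.Agent.Lib.MP_226ef1_lc.U.H74.A2
import Pool.Agent.Lib.MP_226ef1_lc.U.H76.Tspr
import Pool.Agent.Lib.MP_226ef1_lc.U.H76.Compt
import Pool.Agent.Lib.MP_226ef1_lc.U.H86.Ta1
import Pool.Agent.Lib.MP_226ef1_lc.U.H86.Ta2
import Pool.Agent.Lib.MP_226ef1_lc.U.H86.Tasub

set_option autoImplicit false

namespace Pool.Agent.Lib.MP_226ef1_lc.U.H88

open Pool.Agent.Lib.MP_226ef1_lc.U

universe u

/-- Finite axiomatisability of inclusive varieties generated by finite semigroups is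
undecidable. -/
theorem final : FinalStatement.{u} :=
  finalH H58.rank (H50.dict (H42.tab nfStatement) H70.faml nfStatement famwf) H39.A1 H74.a2 H47.a3
    H39.A4 H39.B1 H39.consT1 (H86.ta1 famwf H47.w) (H86.ta2 H47.w) (H86.tasub famwf) H72.tswf
    H76.tspr (H76.compt H25.wordsc)

end Pool.Agent.Lib.MP_226ef1_lc.U.H88
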