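import Pool.Agent.Lib.MP_226ef1_lc.U.Tools

/-!
# Module NF: normal forms are compatible with concatenation
-/

set_option autoImplicit false

namespace Pool.Agent.Lib.MP_226ef1_lc.U.H88

open Pool.Agent.Lib.MP_226ef1_lc.U

theorem sd_cons {τ : Tm} (hτ : τ.WF) {h : ℕ} (hh : h < 3) (s : List ℕ) : τ.sd (h :: s) = τ.sd s := by
  refine Tm.sd_congr fun c hc => ?_
  have := hτ.cols_ge c (hτ.seeds_cols c hc)
  simp only [List.mem_cons]
  constructor
  · rintro (h1 | h1)
    · omega
    · exact h1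
  · exact Or.inr

theorem sd_sd_append {τ : Tm} (a b : List ℕ) : τ.sd (τ.sd a ++ b) = τ.sd (a ++ b) := by
  refine Tm.sd_congr fun c hc => ?_
  simp [Tm.mem_sd, hc]

theorem sd_append_sd {τ : Tm} (a b : List ℕ) : τ.sd (b ++ τ.sd a) = τ.sd (b ++ a) := by
  refine Tm.sd_congr fun c hc => ?_
  simp [Tm.mem_sd, hc]

theorem zero_notMem_sd {τ : Tm} (hτ : τ.WF) (a : List ℕ) : 0 ∉ τ.sd a := by
  intro h
  have := hτ.cols_ge 0 (hτ.seeds_cols 0 (Tm.mem_sd.1 h).1)
  omega

/-- the normal form of a long word -/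
theorem long_spec {τ : Tm} (hτ : τ.WF) {a : List ℕ} (h0 : 0 ∉ a) (hF : ¬ τ.Free a) :
    ∃ h, (h = 1 ∨ h = 2) ∧ τ.nf a = h :: τ.sd a ∧ (h + (τ.sd a).sum) % 2 = a.sum % 2 := by
  refine ⟨_, ?_, Tm.nf_long h0 hF, ?_⟩ <;> omega

theorem nf (τ : Tm) (hτ : τ.WF) :
    (∀ a b : List ℕ, a ≠ [] → τ.nf (τ.nf a ++ b) = τ.nf (a ++ b)) ∧
    (∀ a b : List ℕ, b ≠ [] → τ.nf (a ++ τ.nf b) = τ.nf (a ++ b)) ∧
    (∀ a : List ℕ, a ≠ [] → τ.nf (τ.nf a) = τ.nf a ∧ τ.nf a ≠ []) := by
  have key : ∀ a b : List ℕ, a ≠ [] → τ.nf (τ.nf a ++ b) = τ.nf (a ++ b) := by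
    intro a b ha
    by_cases h0 : 0 ∈ a
    · rw [Tm.nf_zero h0, Tm.nf_zero (by simp), Tm.nf_zero (by simp [h0])]
    by_cases hF : τ.Free a
    · rw [Tm.nf_free h0 hF]
    obtain ⟨h, hh, hnf, hsum⟩ := long_spec hτ h0 hF
    rw [hnf]
    by_cases hb : 0 ∈ b
    · rw [Tm.nf_zero (by simp [hb]), Tm.nf_zero (by simp [hb])]
    refine Tm.nf_eq_of_long ?_ ?_ ?_ ?_ ?_ ?_
    · simp only [List.cons_append, List.mem_cons, List.mem_append]
      rintro (h1 | h1 | h1)
      · omega
      · exact zero_notMem_sd hτ a h1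
      · exact hb h1
    · simp [h0, hb]
    · refine Tm.not_free_of_col (c := h) (by simp) fun hc => ?_
      have := hτ.cols_ge h hc
      omega
    · exact fun hc => hF (hc.of_inf ((List.prefix_append a b).isInfix) ha)
    · intro c hc
      have h3 := hτ.cols_ge c (hτ.seeds_cols c hc)
      simp only [List.cons_append, List.mem_cons, List.mem_append, Tm.mem_sd, hc, true_and]
      constructor
      · rintro (h1 | h1)
        · omega
        · exact h1
      · exact Or.inr
    · simp only [List.cons_append, List.sum_cons, List.sum_append]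
      omega
  have key' : ∀ a b : List ℕ, b ≠ [] → τ.nf (a ++ τ.nf b) = τ.nf (a ++ b) := by
    intro a b ha
    by_cases h0 : 0 ∈ b
    · rw [Tm.nf_zero h0, Tm.nf_zero (by simp), Tm.nf_zero (by simp [h0])]
    by_cases hF : τ.Free b
    · rw [Tm.nf_free h0 hF]
    obtain ⟨h, hh, hnf, hsum⟩ := long_spec hτ h0 hF
    rw [hnf]
    by_cases hb : 0 ∈ a
    · rw [Tm.nf_zero (by simp [hb]), Tm.nf_zero (by simp [hb])]
    refine Tm.nf_eq_of_long ?_ ?_ ?_ ?_ ?_ ?_
    · simp only [List.mem_cons, List.mem_append]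
      rintro (h1 | h1 | h1)
      · exact hb h1
      · omega
      · exact zero_notMem_sd hτ b h1
    · simp [h0, hb]
    · refine Tm.not_free_of_col (c := h) (by simp) fun hc => ?_
      have := hτ.cols_ge h hc
      omega
    · exact fun hc => hF (hc.of_inf ((List.suffix_append a b).isInfix) ha)
    · intro c hc
      have h3 := hτ.cols_ge c (hτ.seeds_cols c hc)
      simp only [List.mem_cons, List.mem_append, Tm.mem_sd, hc, true_and]
      constructor
      · rintro (h1 | h1 | h1)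
        · exact Or.inl h1
        · omega
        · exact Or.inr h1
      · rintro (h1 | h1)
        · exact Or.inl h1
        · exact Or.inr (Or.inr h1)
    · simp only [List.sum_cons, List.sum_append]
      omega
  refine ⟨key, key', fun a ha => ⟨?_, ?_⟩⟩
  · have := key a [] ha
    simpa using this
  · by_cases h0 : 0 ∈ a
    · rw [Tm.nf_zero h0]; simp
    by_cases hF : τ.Free a
    · rw [Tm.nf_free h0 hF]; exact ha
    rw [Tm.nf_long h0 hF]; simp

theorem nfStatement : NfStatement := nf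

end Pool.Agent.Lib.MP_226ef1_lc.U.H88
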