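import Pool.Agent.Lib.MP_226ef1_lc.U.H88.Famwf

/-!
# Module SHORT: short words are separated by `Free(1)`
-/

set_option autoImplicit false

namespace Pool.Agent.Lib.MP_226ef1_lc.U.H88

open Pool.Agent.Lib.MP_226ef1_lc.U

universe u

theorem map_injOn {α : Type u} {c : α → ℕ} {P : α → Prop}
    (hc : ∀ a b, P a → P b → c a = c b → a = b) :
    ∀ v w : List α, (∀ a ∈ v, P a) → (∀ a ∈ w, P a) → v.map c = w.map c → v = w := by
  intro v
  induction v with
  | nil =>
    intro w _ _ h
    exact (List.map_eq_nil_iff.1 h.symm).symm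
  | cons a v ih =>
    intro w hv hw h
    rcases w with _ | ⟨b, w⟩
    · simp at h
    · simp only [List.map_cons, List.cons.injEq] at h
      rw [hc a b (hv a (by simp)) (hw b (by simp)) h.1,
        ih w (fun x hx => hv x (by simp [hx])) (fun x hx => hw x (by simp [hx])) h.2]

theorem short : ShortStatement.{u} := by
  classical
  intro J hJ T _ w hw hlen
  let c : T → ℕ := fun t => oo (w.dedup.idxOf t)
  let σ : T → List ℕ := fun t => if t ∈ w then [c t] else [0]
  have hτ : (FR J 1).WF := FR_wf J le_rfl (by omega)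
  have hidx : ∀ t ∈ w, w.dedup.idxOf t < J.L := by
    intro t ht
    have h1 : w.dedup.idxOf t < w.dedup.length := List.idxOf_lt_length_iff.2 (by simpa using ht)
    have h2 := (List.dedup_sublist w).length_le
    omega
  have hinj : ∀ a b : T, a ∈ w → b ∈ w → c a = c b → a = b := by
    intro a b ha hb hab
    have h1 : w.dedup.idxOf a = w.dedup.idxOf b := by
      simp only [c, oo] at hab
      omega
    exact (List.idxOf_inj (by simpa using ha)).1 h1
  have hwmap : w.flatMap σ = w.map c := flatMap_eq_map fun a ha => by simp [σ, ha]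
  have h0 : 0 ∉ w.map c := by
    simp only [List.mem_map, not_exists, not_and, c, oo]
    intro t _ h
    omega
  have hfree : (FR J 1).Free (w.map c) := by
    refine ⟨by simpa using hw, ?_, ?_, fun s _ h => h⟩
    · rw [List.length_map]; exact hlen
    intro x hx
    obtain ⟨t, ht, rfl⟩ := List.mem_map.1 hx
    exact Or.inr (Or.inr (Or.inr ⟨_, hidx t ht, rfl⟩))
  refine ⟨FR J 1, Or.inr ⟨1, le_rfl, by omega, rfl⟩, σ, fun g => ?_, ?_⟩
  · by_cases hg : g ∈ w <;> simp [σ, hg]
  · intro v hv _ hnf
    have hne : v.flatMap σ ≠ [] := by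
      intro h
      have h1 := length_le_flatMap (σ := σ) (w := v) (fun a _ => by
        by_cases ha : a ∈ w <;> simp [σ, ha])
      rw [h] at h1
      exact hv (List.length_eq_zero_iff.1 (by simpa using h1))
    have hne' : w.flatMap σ ≠ [] := by rw [hwmap]; simpa using hw
    rcases Tm.of_nf_eq hτ hne hne' hnf with h | ⟨_, _, _, h⟩ | ⟨_, _, _, h, _⟩
    · rw [hwmap] at h; exact absurd h.2 h0
    · have hvw : ∀ a ∈ v, a ∈ w := by
        intro a ha
        by_contra haw
        apply h0
        rw [← hwmap, ← h]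
        exact List.mem_flatMap.2 ⟨a, ha, by simp [σ, haw]⟩
      have hvmap : v.flatMap σ = v.map c := flatMap_eq_map fun a ha => by simp [σ, hvw a ha]
      rw [hvmap, hwmap] at h
      have := map_injOn (P := fun a => a ∈ w) hinj v w hvw (fun a ha => ha) h
      rw [this]
    · rw [hwmap] at h; exact absurd hfree h

end Pool.Agent.Lib.MP_226ef1_lc.U.H88
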