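import Pool.Agent.Lib.MP_226ef1_lc.U.H88.Ndir
import Pool.Agent.Lib.MP_226ef1_lc.U.H88.Nf
import Pool.Agent.Lib.MP_226ef1_lc.U.H88.Short
import Pool.Agent.Lib.MP_226ef1_lc.U.H21.Cons
import Pool.Agent.Lib.MP_226ef1_lc.U.H25.MainH
import Pool.Agent.Lib.MP_226ef1_lc.U.H31.B3
import Pool.Agent.Lib.MP_226ef1_lc.U.H31.Step4
import Pool.Agent.Lib.MP_226ef1_lc.U.H31.Efacts
import Pool.Agent.Lib.MP_226ef1_lc.U.H42.Tab
import Pool.Agent.Lib.MP_226ef1_lc.U.H42.ClsNet
import Pool.Agent.Lib.MP_226ef1_lc.U.H50.Block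
import Pool.Agent.Lib.MP_226ef1_lc.U.H50.Step3
import Pool.Agent.Lib.MP_226ef1_lc.U.H55.Step2
import Pool.Agent.Lib.MP_226ef1_lc.U.H55.Long
import Pool.Agent.Lib.MP_226ef1_lc.U.H65.Runnet
import Pool.Agent.Lib.MP_226ef1_lc.U.H66.NetRun
import Pool.Agent.Lib.MP_226ef1_lc.U.H66.NetOrd
import Pool.Agent.Lib.MP_226ef1_lc.U.H70.Faml
import Pool.Agent.Lib.MP_226ef1_lc.U.H70.Locb
import Pool.Agent.Lib.MP_226ef1_lc.U.H70.Diag
import Pool.Agent.Lib.MP_226ef1_lc.U.H70.A0
import Pool.Agent.Lib.MP_226ef1_lc.U.H70.Step5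
import Pool.Agent.Lib.MP_226ef1_lc.U.H98.Iv
import Pool.Agent.Lib.MP_226ef1_lc.U.H99.Obs
import Pool.Agent.Lib.MP_226ef1_lc.U.H99.Mach

set_option autoImplicit false

namespace Pool.Agent.Lib.MP_226ef1_lc.U.H88

open Pool.Agent.Lib.MP_226ef1_lc.U

universe u

theorem finalH (rank : RankStatement.{u}) (dict : DictStatement) (a1 : A1Statement.{u})
    (a2 : A2Statement.{u}) (a3 : A3Statement.{u}) (a4 : A4Statement.{u}) (b1 : B1Statement.{u})
    (ct1 : ConsT1Statement.{u}) (ta1 : Ta1Statement) (ta2 : Ta2Statement) (tasub : TaSubStatement)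
    (tswf : TswfStatement) (tspr : TsprStatement) (compt : ComptStatement) :
    FinalStatement.{u} := by
  have core : CoreStatement.{u} := core_of (cons_of H21.c1 H21.c2 H21.c3 H21.c4) ct1 H70.a0 a1 a2 a3
    a4 (caseB_of b1 H31.b3)
  have hn : NDirStatement.{u} := ndir (H55.long famwf) H31.efacts (H55.step2 famwf)
    (H50.step3 famwf) rank short (H31.step4 famwf) (H70.step5 famwf) (H50.block famwf)
    (H99.obs famwf) core
  have mainN : MainNStatement.{u} := mainN_of hn (H98.ivb dict) (H98.fb dict) H70.locb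
  have mainH : MainHStatement.{u} := H25.mainh (taNot_of ta1 ta2) tasub (H98.iva dict)
    (H98.ivb dict)
  exact final_of H99.mach tswf H42.clsnet H42.netcls H66.netord H66.netrun H65.runnet tspr compt
    (tabs_of H70.faml famwf (H42.tab nfStatement)) mainN mainH H70.diag

end Pool.Agent.Lib.MP_226ef1_lc.U.H88
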