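import Pool.Agent.Lib.MP_226ef1_lc.U.IfaceM
import Pool.Agent.Lib.MP_226ef1_lc.U.Tools

/-!
# Assembly of section 5
-/

set_option autoImplicit false

namespace Pool.Agent.Lib.MP_226ef1_lc.U.H88

open Pool.Agent.Lib.MP_226ef1_lc.U

universe u v

/-- transport of a closed legal structure -/
theorem CLS.transfer {J : TS} {V : Type u} {W : Type v} (e : W ≃ V) {ty : V → V → ℕ}
    (h : CLS J ty) : CLS J (fun x y => ty (e x) (e y)) where
  mem x y hxy := h.mem _ _ (e.injective.ne hxy)
  star x y hxy := h.star _ _ (e.injective.ne hxy)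
  legal x y z h1 h2 h3 := h.legal _ _ _ (e.injective.ne h1) (e.injective.ne h2) (e.injective.ne h3)
  succ x := by
    obtain ⟨y, hy, hs⟩ := h.succ (e x)
    refine ⟨e.symm y, ?_, by simpa using hs⟩
    intro hxy
    apply hy
    rw [← hxy]; simp

theorem ndir (hLong : LongStatement.{u}) (hE : EFactsStatement.{u}) (h2 : Step2Statement.{u})
    (h3 : Step3Statement.{u}) (hR : RankStatement.{u}) (hSh : ShortStatement.{u})
    (h4 : Step4Statement.{u}) (h5 : Step5Statement.{u}) (hB : BlockStatement.{u})
    (hO : ObsStatement.{u}) (hC : CoreStatement.{u}) : NDirStatement.{u} := by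
  classical
  intro J hJ hno T _ hloc u hu
  by_cases hlen : u.length ≤ J.L
  · exact hSh J hJ T u hu hlen
  have hlen : J.L < u.length := by omega
  have hL := hLong J hJ T hloc
  have hEf := hE J.L T hL
  have hG : ∀ t, t ∈ u ↔ t ∈ u.toFinset := fun t => by simp
  have hGne : u.toFinset.Nonempty := by
    obtain ⟨t, ht⟩ := List.exists_mem_of_ne_nil u hu
    exact ⟨t, by simpa using ht⟩
  generalize u.toFinset = G at hG hGne
  have hg5 := h2 J hJ T hloc hL hEf G hGne
  have hr1 := h3 J hJ T hloc hL hEf G hg5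
  have hRF := hR J.L T hL hEf G hGne hr1
  by_cases hm : ∀ x ∈ G, ¬ mn J.L G x
  · exact h4 J hJ T G u hlen hG hRF hg5 hm
  push Not at hm
  by_cases hcard : G.card ≤ J.L + 1
  · exact h5 J hJ T hloc G u hlen hG hRF hcard hm
  by_contra hsep
  have core : Core J G (mn J.L G) (Gen J.L G) (fun v => prd v ≠ ee J.L G) := by
    refine ⟨by omega, hm, fun Y hY => ⟨hY.1, hY.2.1⟩, hRF.up, hg5, ?_, ?_, ?_⟩
    · intro a v b hG' hv hpv hp h hvE
      apply h
      have hpab : par (mn J.L G) (a ++ b) = 0 := by
        rw [par_append, par_append, hpv] at hp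
        rw [par_append]
        have := par_lt (p := mn J.L G) a
        omega
      have h1 := hRF.comm a fun t ht => hG' t (by simp [ht])
      have h2 := hRF.even (a ++ b) (fun t ht => hG' t (by
        rcases List.mem_append.1 ht with h | h <;> simp [h])) hpab
      rw [prd_append, prd_append, hvE, ← h1, mul_assoc, ← prd_append]
      exact h2
    · intro τ hτ c hc
      by_contra hcon
      push Not at hcon
      exact hsep (hB J hJ T G u hlen hG hRF τ hτ c hc hcon)
    · intro Y hY hYc hYm V hV hVl hVp hVN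
      obtain ⟨τ, hτ, c, hc, hbad⟩ := hO J hJ T hloc hEf G hRF Y hY hYc hYm V hV hVl hVp hVN
      exact ⟨τ, hτ, c, hc, fun v hv h => h (hbad v hv)⟩
  obtain ⟨V, hV, ty, hty⟩ := hC J hJ T G _ _ _ core
  have hcard : 0 < V.card := Finset.card_pos.2 hV
  exact hno V.card hcard _ (CLS.transfer V.equivFin.symm hty)

end Pool.Agent.Lib.MP_226ef1_lc.U.H88
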